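import Mathlib
import Pool.Agent.Helper14.FatouDefs
import Pool.Agent.Helper14.Fatou
import Pool.Agent.Collatz3.ND
import Pool.Agent.SLD.All
import Pool.Agent.SLD.Conv
import Pool.Agent.RTE.AllX
import Pool.Agent.RTE.SmAllQ

set_option autoImplicit false

namespace Pool.Agent.Results.MP_071ec9_an.DensityRate

open Filter Topology
open Pool.Agent.Helper14 (T f₀ fatouComponent IsWanderingDomain)

/-- The set of integers whose Fatou component is a wandering domain of `f₀`. -/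
def W : Set ℤ := {n : ℤ | IsWanderingDomain f₀ (fatouComponent f₀ (n : ℂ))}

/-- The number of `n ∈ A` with `1 ≤ σ n ≤ x` and `n = r` modulo `q` (`σ = 1` or `-1`). -/
noncomputable def N (σ : ℤ) (A : Set ℤ) (x q : ℕ) (r : ℤ) : ℕ :=
  Set.ncard {n : ℤ | 1 ≤ σ * n ∧ σ * n ≤ x ∧ (q : ℤ) ∣ n - r ∧ n ∈ A}

/-- `A` is invariant outside `[-K, K]`. -/
def EvInv (K : ℕ) (A : Set ℤ) : Prop := ∀ n : ℤ, (K : ℤ) < |n| → (T n ∈ A ↔ n ∈ A)

/-- `A` has natural density `d` among the integers of sign `σ`, and the same density along every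
arithmetic progression `σ (q m + r)`, `m = 0, 1, 2, …`. -/
def Dens (σ : ℤ) (A : Set ℤ) (d : ℝ) : Prop :=
  ∀ q r : ℕ, 1 ≤ q → Tendsto (fun x : ℝ =>
    (Set.ncard {m : ℕ | (m : ℝ) ≤ x ∧ σ * (q * m + r) ∈ A} : ℝ) / x) atTop (𝓝 d)

open Classical in
/-- The sum of the smooth weights `φ (|n| / x)` over the `n ∈ A` of sign `σ` with `n = r` modulo `q`. -/
noncomputable def Smooth (σ : ℤ) (A : Set ℤ) (φ : ℝ → ℝ) (x : ℝ) (q : ℕ) (r : ℤ) : ℝ :=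
  ∑' n : ℕ, if (q : ℤ) ∣ σ * n - r ∧ σ * (n : ℤ) ∈ A then φ (n / x) else 0

/-- **The natural density of the invariant sets of the `3x+1` map, with a rate**, uniform in the set
and in the residue class, with a power of `x` as level of distribution.
1. For every `B` there are `δ > 0` and `C`: if `A` is invariant outside `[-K, K]`, `K ≤ x ^ δ`, then
`|N σ A x q r - N σ A x 1 0 / q| ≤ C x / (q (log x) ^ B)` for all odd `q ≤ x ^ δ` and all `r`.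
2. There are `c, δ > 0`, `C`, and for `σ = 1, -1` a set function `d`, such that
`|N σ A x q r - d A x / q| ≤ C x / (q (log x) ^ (1/26))` for every set `A` which is invariant outside
`[-K, K]`, all `x ≥ 2` with `K ≤ x ^ δ`, all `q ≤ x ^ δ`, even or odd, and all `r`; with a smooth weight
`φ` with compact support in `(0, ∞)` in place of the sharp cut-off the error is `O(x / (q (log x) ^ B))` for
every `B`, in the same uniformity (`δ` and the constant depend on `φ` and `B`); almost all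
`n ∈ A` have `3 ^ a n + b ∈ A`, for any given `a`, `b`; `d` is countably additive; `c / |a| ≤ d A` for
invariant `A` with a member `a` of sign `σ`, and for the set of the `n` whose orbit meets `a`, `3 ∤ a`;
`W` is invariant, and its density is `0` iff `W` has no element of sign `σ`. -/
theorem result :
    (∀ B : ℕ, ∃ δ C : ℝ, 0 < δ ∧ ∀ (σ : ℤ) (K : ℕ) (A : Set ℤ) (x q : ℕ) (r : ℤ), |σ| = 1 →
      EvInv K A → 2 ≤ x → (K : ℝ) ≤ (x : ℝ) ^ δ → Odd q → (q : ℝ) ≤ (x : ℝ) ^ δ →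
      |(N σ A x q r : ℝ) - N σ A x 1 0 / q| ≤ C * x / (q * Real.log x ^ B)) ∧
    ∃ c δ C : ℝ, 0 < c ∧ 0 < δ ∧ ∀ σ : ℤ, |σ| = 1 → ∃ d : Set ℤ → ℝ,
      (∀ (K : ℕ) (A : Set ℤ), EvInv K A → ∀ (x q : ℕ) (r : ℤ), 2 ≤ x → (K : ℝ) ≤ (x : ℝ) ^ δ →
        1 ≤ q → (q : ℝ) ≤ (x : ℝ) ^ δ →
        |(N σ A x q r : ℝ) - d A * x / q| ≤ C * x / (q * Real.log x ^ ((1 : ℝ) / 26))) ∧
      (∀ φ : ℝ → ℝ, ContDiff ℝ (⊤ : ℕ∞) φ → HasCompactSupport φ →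
        (∃ s : ℝ, 0 < s ∧ ∀ u : ℝ, u ≤ s → φ u = 0) → ∀ B : ℕ, ∃ δ' C' : ℝ, 0 < δ' ∧
        ∀ (K : ℕ) (A : Set ℤ), EvInv K A → ∀ (x : ℝ) (q : ℕ) (r : ℤ), 2 ≤ x → (K : ℝ) ≤ x ^ δ' →
        1 ≤ q → (q : ℝ) ≤ x ^ δ' →
        |Smooth σ A φ x q r - d A * x / q * ∫ u, φ u| ≤ C' * x / (q * Real.log x ^ B)) ∧
      (∀ (K : ℕ) (A : Set ℤ), EvInv K A → ∀ F : Finset (ℕ × ℤ),
        Dens σ {n : ℤ | n ∈ A ∧ ∀ s ∈ F, 3 ^ s.1 * n + s.2 ∈ A} (d A)) ∧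
      d Set.univ = 1 ∧
      (∀ (K : ℕ) (A : ℕ → Set ℤ), (∀ i, EvInv K (A i)) → Pairwise (Function.onFun Disjoint A) →
        HasSum (fun i => d (A i)) (d (⋃ i, A i))) ∧
      (∀ A : Set ℤ, (∀ n, T n ∈ A ↔ n ∈ A) → ∀ a ∈ A, 0 < σ * a → c / |(a : ℝ)| ≤ d A) ∧
      (∀ a : ℤ, 0 < σ * a → ¬ (3 : ℤ) ∣ a → c / |(a : ℝ)| ≤ d {n : ℤ | ∃ k : ℕ, T^[k] n = a}) ∧
      (∀ n, T n ∈ W ↔ n ∈ W) ∧ (d W = 0 ↔ ∀ n ∈ W, ¬ 0 < σ * n) := by
  constructor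
  · intro B
    obtain ⟨δ, hδ, C, h⟩ := Pool.Agent.SLD.all_ALE B
    refine ⟨δ, C, hδ, fun σ K A x q r hσ hA hx hK hq hqx => ?_⟩
    exact h σ r K A x q (Pool.Agent.SLD.conv_sign hσ) (Pool.Agent.SLD.conv_EvInv hA) hx hK hq hqx
  · obtain ⟨c, hc, hN⟩ := Pool.Agent.Collatz3.ND.main
    obtain ⟨δ, C, hδ, hC, hF⟩ := Pool.Agent.RTE.all_ALQX
    refine ⟨c, δ, C, hc, hδ, fun σ hσ => ?_⟩
    obtain ⟨d, h1, h2, h3, h4, h5, h6, h7⟩ := hN σ hσ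
    have hs := Pool.Agent.SLD.conv_sign hσ
    refine ⟨d, ?_, ?_, h2, h3, h4, h5, h6, Pool.Agent.Collatz3.ND.reach_inv_W, h7⟩
    swap
    · intro φ hφ hc hφ0 B
      obtain ⟨δ', C', hδ', _, hS⟩ := Pool.Agent.RTE.all_SMQ φ hφ hc hφ0 B
      refine ⟨δ', C', hδ', fun K A hA x q r hx hK hq hqx => ?_⟩
      exact hS σ K A (d A) x q r hs (Pool.Agent.SLD.conv_EvInv hA)
        (Pool.Agent.SLD.conv_dens hs (h1 K A hA 1 0 le_rfl)) hx hK hq hqx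
    intro K A hA x q r hx hK hq hqx
    exact hF σ K A (d A) hs (Pool.Agent.SLD.conv_EvInv hA)
      (Pool.Agent.SLD.conv_dens hs (h1 K A hA 1 0 le_rfl)) x q r hx hK hq hqx

end Pool.Agent.Results.MP_071ec9_an.DensityRate
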