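import Mathlib
import Pool.Agent.Helper14.FatouDefs
import Pool.Agent.Helper14.Fatou
import Pool.Agent.PDQ.All

set_option autoImplicit false

namespace Pool.Agent.Results.MP_071ec9_an.LinnikTrees

open Pool.Agent.Helper14 (T f₀ fatouComponent IsWanderingDomain f₀_iter_intCast intWandering_congr
  not_intWandering abs_le_finite)

/-- There are absolute constants `c > 0` and `C` such that for every integer `m ≠ 0`, every residue class
`r` modulo `q` (`q ≥ 1`) and every real `x ≥ q ^ C` at least `c x / q` integers `n = r` modulo `q` of the sign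
of `m` and of absolute value at most `x |m|` satisfy `f₀^j(n) = f₀^k(m)` for some `j, k` (with `k = 0`
if `m` is not divisible by 3), so that the Fatou component of `n` is a wandering domain of `f₀` if and
only if that of `m` is. The Fatou components of `1` and `-1` are not wandering domains. -/
theorem result :
    (∃ (c : ℝ) (C : ℕ), 0 < c ∧ ∀ m : ℤ, m ≠ 0 → ∀ (q : ℕ) (r : ℤ) (x : ℝ), 1 ≤ q →
      (q : ℝ) ^ C ≤ x →
      c * x / q ≤
        (Set.ncard {n : ℤ | 0 < n * m ∧ |(n : ℝ)| ≤ x * |(m : ℝ)| ∧ (q : ℤ) ∣ n - r ∧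
          (∃ j k : ℕ, f₀^[j] (n : ℂ) = f₀^[k] (m : ℂ) ∧ (¬ (3 : ℤ) ∣ m → k = 0)) ∧
          (IsWanderingDomain f₀ (fatouComponent f₀ (n : ℂ)) ↔
            IsWanderingDomain f₀ (fatouComponent f₀ (m : ℂ)))} : ℝ)) ∧
    ¬ IsWanderingDomain f₀ (fatouComponent f₀ (1 : ℂ)) ∧
    ¬ IsWanderingDomain f₀ (fatouComponent f₀ (-1 : ℂ)) := by
  refine ⟨?_, ?_, ?_⟩
  · obtain ⟨c, C, hc, h⟩ := Pool.Agent.PDQ.all_Q8
    refine ⟨c, C, hc, fun m hm q r x hq hx => (h m hm q r x hq hx).trans ?_⟩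
    have hsub : {n : ℤ | 0 < n * m ∧ |(n : ℝ)| ≤ x * |(m : ℝ)| ∧ (q : ℤ) ∣ n - r ∧
        ∃ j k : ℕ, T^[j] n = T^[k] m ∧ (¬ (3 : ℤ) ∣ m → k = 0)} ⊆
        {n : ℤ | 0 < n * m ∧ |(n : ℝ)| ≤ x * |(m : ℝ)| ∧ (q : ℤ) ∣ n - r ∧
          (∃ j k : ℕ, f₀^[j] (n : ℂ) = f₀^[k] (m : ℂ) ∧ (¬ (3 : ℤ) ∣ m → k = 0)) ∧
          (IsWanderingDomain f₀ (fatouComponent f₀ (n : ℂ)) ↔
            IsWanderingDomain f₀ (fatouComponent f₀ (m : ℂ)))} := by
      rintro n ⟨h1, h2, h0, j, k, h3, h4⟩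
      exact ⟨h1, h2, h0, ⟨j, k, by rw [f₀_iter_intCast, f₀_iter_intCast, h3], h4⟩,
        intWandering_congr h3⟩
    have hfin : {n : ℤ | 0 < n * m ∧ |(n : ℝ)| ≤ x * |(m : ℝ)| ∧ (q : ℤ) ∣ n - r ∧
          (∃ j k : ℕ, f₀^[j] (n : ℂ) = f₀^[k] (m : ℂ) ∧ (¬ (3 : ℤ) ∣ m → k = 0)) ∧
          (IsWanderingDomain f₀ (fatouComponent f₀ (n : ℂ)) ↔
            IsWanderingDomain f₀ (fatouComponent f₀ (m : ℂ)))}.Finite :=
      (abs_le_finite _).subset fun _ h => h.2.1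
    exact_mod_cast Set.ncard_le_ncard hsub hfin
  · have h := not_intWandering (n := 1) (i := 0) (j := 2) (by norm_num) (by decide)
    unfold Pool.Agent.Helper14.IntWandering at h
    exact_mod_cast h
  · have h := not_intWandering (n := -1) (i := 0) (j := 1) (by norm_num) (by decide)
    unfold Pool.Agent.Helper14.IntWandering at h
    exact_mod_cast h

end Pool.Agent.Results.MP_071ec9_an.LinnikTrees
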