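import Mathlib
import Pool.Agent.Helper14.FatouDefs
import Pool.Agent.Helper14.Fatou
import Pool.Agent.ZOL.All
import Pool.Agent.ZOL.Main
import Pool.Agent.SLD.Conv
import Pool.Agent.LCF.LawM
import Pool.Agent.LCF.Few
import Pool.Agent.LCF.AllM
import Pool.Agent.LCF.LatLaw
import Pool.Agent.LCF.Sharp
import Pool.Agent.MB86.AnyI
import Pool.Agent.MB86.OrbLI
import Pool.Agent.MB86.LatticeI
import Pool.Agent.MB86.PrL
import Pool.Agent.MB86.ShareD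
import Pool.Agent.LCF.Wt
import Pool.Agent.RTE.AllX

set_option autoImplicit false

namespace Pool.Agent.Results.MP_071ec9_an.SharpZeroOneLaw

open Filter Topology
open Pool.Agent.Helper14 (T f₀ fatouComponent IsWanderingDomain)

/-- The set of integers whose Fatou component is a wandering domain of `f₀`. -/
def W : Set ℤ := {n : ℤ | IsWanderingDomain f₀ (fatouComponent f₀ (n : ℂ))}

/-- `A` is invariant outside `[-K, K]`. -/
def EvInv (K : ℕ) (A : Set ℤ) : Prop := ∀ n : ℤ, (K : ℤ) < |n| → (T n ∈ A ↔ n ∈ A)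

/-- `A` has natural density `d` among the integers of sign `σ` (`σ = 1` or `-1`), and the same
density along every arithmetic progression `σ (q m + r)`, `m = 0, 1, 2, …`. -/
def Dens (σ : ℤ) (A : Set ℤ) (d : ℝ) : Prop :=
  ∀ q r : ℕ, 1 ≤ q → Tendsto (fun x : ℝ =>
    (Set.ncard {m : ℕ | (m : ℝ) ≤ x ∧ σ * (q * m + r) ∈ A} : ℝ) / x) atTop (𝓝 d)

/-- The number of integers `n` of the block `(x, x + x ^ θ]` with `σ n ∈ N`. -/
noncomputable def Num (σ : ℤ) (N : Set ℤ) (θ : ℝ) (x : ℕ) : ℕ :=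
  Set.ncard {n : ℕ | x < n ∧ (n : ℝ) ≤ x + (x : ℝ) ^ θ ∧ σ * (n : ℤ) ∈ N}

/-- The number of primes `p` of the block `(x, x + x ^ θ]` with `σ p ∈ N`. -/
noncomputable def NumP (σ : ℤ) (N : Set ℤ) (θ : ℝ) (x : ℕ) : ℕ :=
  Set.ncard {p : ℕ | x < p ∧ (p : ℝ) ≤ x + (x : ℝ) ^ θ ∧ p.Prime ∧ σ * (p : ℤ) ∈ N}

/-- For some `θ < 1`, `η > 0`, and for `X` in a sequence tending to infinity, all but `o(X)` of the
blocks `(x, x + x ^ θ]`, `X ≤ x < 2 X`, contain at least `η x ^ θ` integers `n` with `σ n ∈ N`. -/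
def Ample (σ : ℤ) (N : Set ℤ) : Prop :=
  ∃ θ η : ℝ, 0 < θ ∧ θ < 1 ∧ 0 < η ∧ ∀ ε : ℝ, 0 < ε → ∃ᶠ X : ℕ in atTop,
    (Set.ncard {x : ℕ | X ≤ x ∧ x < 2 * X ∧ (Num σ N θ x : ℝ) < η * (x : ℝ) ^ θ} : ℝ) ≤ ε * X

/-- The `x` in `[X, 2X)` such that all but `η x ^ θ` of the integers, and all but `η x ^ θ / log x` of the
primes, of the block `(x, x + x ^ θ]` have `σ n ∈ A`; for `θ > 1/4` the block moreover contains at least
`c₁ x ^ θ / log x` primes. -/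
def Full (c₁ θ η : ℝ) (σ : ℤ) (A : Set ℤ) (X : ℕ) : Set ℕ :=
  {x : ℕ | X ≤ x ∧ x < 2 * X ∧ (Num σ Aᶜ θ x : ℝ) ≤ η * (x : ℝ) ^ θ ∧
    (NumP σ Aᶜ θ x : ℝ) ≤ η * (x : ℝ) ^ θ / Real.log x ∧
    (1 / 4 < θ → c₁ * (x : ℝ) ^ θ / Real.log x ≤ (NumP σ Set.univ θ x : ℝ))}

/-- The number of integers `n` of the block `(x, x + h]` with `σ n ∈ N`. -/
noncomputable def Count (σ : ℤ) (N : Set ℤ) (h x : ℕ) : ℕ :=
  Set.ncard {n : ℕ | x < n ∧ n ≤ x + h ∧ σ * (n : ℤ) ∈ N}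

/-- `n` is within `h` of one of the points `2 ^ i 3 ^ j y`, `|i| ≤ J`, `|j| ≤ J`. -/
def Near (J h : ℕ) (y n : ℤ) : Prop :=
  ∃ p q p' q' : ℕ, p ≤ J ∧ q ≤ J ∧ p' ≤ J ∧ q' ≤ J ∧
    |2 ^ p * 3 ^ q * n - 2 ^ p' * 3 ^ q' * y| ≤ 2 ^ p * 3 ^ q * (h : ℤ)

/-- The grand orbit of `n`. -/
def GO (n : ℤ) : Set ℤ := {m : ℤ | ∃ k l : ℕ, T^[k] n = T^[l] m}

/-- The integers within `h` of one of `x, 3 x, …, 3 ^ J x`. -/
def Win (J h : ℕ) (x : ℤ) : Set ℤ := {n : ℤ | ∃ a : ℕ, a ≤ J ∧ |n - 3 ^ a * x| ≤ (h : ℤ)}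

/-- For some `J = J(X)` and `H = H(X) ≥ 1` with `J + log H = o(sqrt (log X))`, and for `X` in a sequence
tending to infinity, for all but `o(X)` of the `x` in `[X, 2X)` there is an `n` in `N` within `H` of one of
the points `2 ^ i 3 ^ j σ x`, `|i| ≤ J`, `|j| ≤ J`. -/
def Dense (σ : ℤ) (N : Set ℤ) : Prop :=
  ∃ J H : ℕ → ℕ, (∀ X, 1 ≤ H X) ∧
    Tendsto (fun X : ℕ => (J X + Real.log (H X)) / Real.sqrt (Real.log X)) atTop (𝓝 0) ∧
    ∀ ε : ℝ, 0 < ε → ∃ᶠ X : ℕ in atTop,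
      (Set.ncard {x : ℕ | X ≤ x ∧ x < 2 * X ∧
        ¬ ∃ n ∈ N, Near (J X) (H X) (σ * (x : ℤ)) n} : ℝ) ≤ ε * X

/-- The same with primes: for all but `o(X / log X)` of the primes `p` in `[X, 2X)` there is an `n` in `N` within
`H` of one of the points `2 ^ i 3 ^ j σ p`, `|i| ≤ J`, `|j| ≤ J`. -/
def DenseP (σ : ℤ) (N : Set ℤ) : Prop :=
  ∃ J H : ℕ → ℕ, (∀ X, 1 ≤ H X) ∧
    Tendsto (fun X : ℕ => (J X + Real.log (H X)) / Real.sqrt (Real.log X)) atTop (𝓝 0) ∧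
    ∀ ε : ℝ, 0 < ε → ∃ᶠ X : ℕ in atTop,
      (Set.ncard {p : ℕ | p.Prime ∧ X ≤ p ∧ p < 2 * X ∧
        ¬ ∃ n ∈ N, Near (J X) (H X) (σ * (p : ℤ)) n} : ℝ) ≤ ε * (X / Real.log X)

open Classical in
/-- The sum of the `w n` over the `n` in `[X, 2X)` with `σ n ∈ A`. -/
noncomputable def WSum (σ : ℤ) (A : Set ℤ) (w : ℕ → ℝ) (X : ℕ) : ℝ :=
  ∑ n ∈ Finset.Ico X (2 * X), if σ * (n : ℤ) ∈ A then w n else 0

/-- The sum over the `x` in `[X, 2X)` of the distance between `m` and the mean of `w` on the block `(x, x + h]`. -/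
noncomputable def Dev (w : ℕ → ℝ) (m : ℝ) (h X : ℕ) : ℝ :=
  ∑ x ∈ Finset.Ico X (2 * X), |(∑ j ∈ Finset.range h, w (x + j + 1)) / h - m|

/-- **The 0-1 law for the `3x+1` map.**
0. Every interval.  Let `[x₀, x₀ + Y)` be any interval of `Y` integers, wherever it lies, `k = ⌊log₂ Y⌋` and
`r = (1 + J + log h) / sqrt (log Y)`.  For all but `C r Y` of the `x` in it, every integer within `h` of one of
the points `2 ^ i 3 ^ j x`, `|i|, |j| ≤ J`, is in the grand orbit of `x`; for all but `C r Y` of the `x` every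
integer within `h` of one of `x, 3 x, …, 3 ^ J x` merges with `x` in `k` steps, `T^[k] n = T^[k] x`.  If
`J + log h ≤ c log Y`, then on average over the `x` in it, the integers within `h` of one of the points
`2 ^ i 3 ^ j x`, `|i|, |j| ≤ J`, are in at most `1 + C r` grand orbits, and `T^[k]` takes at most `1 + C r`
values on the integers within `h` of one of `x, 3 x, …, 3 ^ J x`.  The order `1 / sqrt (log Y)` is sharp: if
`x₀ ≥ Y`, at least `Y / (10 sqrt (log Y))` of the `x` in `[x₀, x₀ + Y)` have `T^[k] (x + 1) ≠ T^[k] x`.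
1. The law.  If `A` is invariant and has density `d` on the side `σ`, then the number of the `x` in `[X, 2X)`
such that all integers within `h` of one of the points `2 ^ i 3 ^ j σ x`, `|i|, |j| ≤ J`, are in `A` is `d X`
up to `C X ((1 + J + log h) / sqrt (log X) + (log X) ^ (-1/26))`.  If `A` is only invariant outside `[-K, K]`,
`K ≤ X ^ δ`, this holds for the block `(x, x + h]` (with `J = 0`), and the number of the `x` in `[X, 2X)` such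
that fewer than `m` of the `n` in `(x, x + h]` are outside `A`, up to the sign, is `d X` up to
`C X ((h / m) sqrt (log (2 h) / log X) + (log X) ^ (-1/26))`, for `1 ≤ m ≤ (h + 1) / 2`.  For every weight
`w`, `|w| ≤ 1`, and every real `m`, the sum of the `w n` over the `n` in `[X, 2X)` with `σ n ∈ A` is `d m X` up to
`C X ((1 + log h) / sqrt (log X) + (log X) ^ (-1/26)) + h + Dev w m h X`, where `Dev w m h X` is the sum over the
`x` in `[X, 2X)` of the distance between `m` and the mean of `w` on `(x, x + h]`.  For all but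
`C (X / log X) (1 + J + log h) / sqrt (log X)` of the primes `p` in `[X, 2X)`, every integer within `h` of one
of the points `2 ^ i 3 ^ j σ p`, `|i|, |j| ≤ J`, is in the grand orbit of `σ p`.
2. Long blocks.  There is an absolute `c₁ > 0`, and for all `θ < 1`, `η > 0` there is `c > 0`: if `A` is
invariant outside a finite set and has density `d > 0` on the side `σ`, then for all large `X` at least `c d X`
of the `x` in `[X, 2X)` are in `Full c₁ θ η σ A X`: almost all integers and primes of their blocks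
`(x, x + x ^ θ]` are in `A`, up to the sign.  If `A` is invariant and `a ∈ A` has sign `σ`, at least
`(c / |a|) X` are.
3. Criteria.  An invariant set `A` has no element of sign `σ` if and only if, for some `J`, `H` with
`J + log H = o(sqrt (log X))`, for almost all `x` there is an integer outside `A` within `H` of one of the
points `2 ^ i 3 ^ j σ x`, `|i|, |j| ≤ J`; if and only if this holds for almost all primes `x`; if and only if for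
some `θ < 1`, `η > 0` almost all blocks `(x, x + x ^ θ]` contain at least `η x ^ θ` integers outside `A`, up to
the sign.
4. No integer lies in a wandering domain of `f₀` if and only if this holds for `W` and both signs.
5. Every positive integer reaches `1` if and only if this holds for the integers that do not reach `1`. -/
theorem result :
    (∃ c C : ℝ, 0 < c ∧ 0 < C ∧ ∀ (J h Y : ℕ) (x₀ : ℤ), 1 ≤ h → 2 ≤ Y →
      (Set.ncard {x : ℤ | x₀ ≤ x ∧ x < x₀ + Y ∧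
        ∃ n : ℤ, Near J h x n ∧ ∀ k l : ℕ, T^[k] n ≠ T^[l] x} : ℝ) ≤
        C * Y * ((1 + J + Real.log h) / Real.sqrt (Real.log Y)) ∧
      (Set.ncard {x : ℤ | x₀ ≤ x ∧ x < x₀ + Y ∧
        ∃ n ∈ Win J h x, T^[Nat.log 2 Y] n ≠ T^[Nat.log 2 Y] x} : ℝ) ≤
        C * Y * ((1 + J + Real.log h) / Real.sqrt (Real.log Y)) ∧
      ((J : ℝ) + Real.log h ≤ c * Real.log Y →
        ∑ x ∈ Finset.Ico x₀ (x₀ + Y), ((GO '' {n : ℤ | Near J h x n}).ncard : ℝ) ≤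
          Y + C * Y * ((1 + J + Real.log h) / Real.sqrt (Real.log Y)) ∧
        ∑ x ∈ Finset.Ico x₀ (x₀ + Y), ((T^[Nat.log 2 Y] '' Win J h x).ncard : ℝ) ≤
          Y + C * Y * ((1 + J + Real.log h) / Real.sqrt (Real.log Y)))) ∧
    (∀ (Y : ℕ) (x₀ : ℤ), 2 ≤ Y → (Y : ℤ) ≤ x₀ → (Y : ℝ) / (10 * Real.sqrt (Real.log Y)) ≤
      (Set.ncard {x : ℤ | x₀ ≤ x ∧ x < x₀ + Y ∧
        T^[Nat.log 2 Y] (x + 1) ≠ T^[Nat.log 2 Y] x} : ℝ)) ∧
    (∃ δ C : ℝ, 0 < δ ∧ 0 < C ∧ ∀ σ : ℤ, |σ| = 1 → ∀ X h : ℕ, 2 ≤ X → 1 ≤ h →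
      (∀ J : ℕ, (Set.ncard {p : ℕ | p.Prime ∧ X ≤ p ∧ p < 2 * X ∧
        ∃ n : ℤ, Near J h (σ * (p : ℤ)) n ∧ ∀ k l : ℕ, T^[k] n ≠ T^[l] (σ * (p : ℤ))} : ℝ) ≤
        C * (X / Real.log X) * ((1 + J + Real.log h) / Real.sqrt (Real.log X))) ∧
      (∀ (A : Set ℤ) (d : ℝ), (∀ n, T n ∈ A ↔ n ∈ A) → Dens σ A d → ∀ J : ℕ,
        |(Set.ncard {x : ℕ | X ≤ x ∧ x < 2 * X ∧
            ∀ n : ℤ, Near J h (σ * (x : ℤ)) n → n ∈ A} : ℝ) - d * X| ≤
          C * X * ((1 + J + Real.log h) / Real.sqrt (Real.log X) + 1 / Real.log X ^ ((1 : ℝ) / 26))) ∧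
      ∀ (K : ℕ) (A : Set ℤ) (d : ℝ), EvInv K A → Dens σ A d → (K : ℝ) ≤ (X : ℝ) ^ δ →
        |(Set.ncard {x : ℕ | X ≤ x ∧ x < 2 * X ∧
            ∀ n : ℕ, x < n → n ≤ x + h → σ * (n : ℤ) ∈ A} : ℝ) - d * X| ≤
          C * X * ((1 + Real.log h) / Real.sqrt (Real.log X) + 1 / Real.log X ^ ((1 : ℝ) / 26)) ∧
        (∀ (w : ℕ → ℝ) (m : ℝ), (∀ n, |w n| ≤ 1) → |WSum σ A w X - d * m * X| ≤
          C * X * ((1 + Real.log h) / Real.sqrt (Real.log X) + 1 / Real.log X ^ ((1 : ℝ) / 26)) +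
            h + Dev w m h X) ∧
        ∀ m : ℕ, 1 ≤ m → 2 * m ≤ h + 1 →
          |(Set.ncard {x : ℕ | X ≤ x ∧ x < 2 * X ∧ Count σ Aᶜ h x < m} : ℝ) - d * X| ≤
            C * X * ((h : ℝ) / m * Real.sqrt (Real.log (2 * h) / Real.log X) +
              1 / Real.log X ^ ((1 : ℝ) / 26))) ∧
    (∃ c₁ : ℝ, 0 < c₁ ∧ ∀ θ : ℝ, 0 < θ → θ < 1 → ∀ η : ℝ, 0 < η → ∃ c : ℝ, 0 < c ∧
      ∀ σ : ℤ, |σ| = 1 →
      (∀ (K : ℕ) (A : Set ℤ) (d : ℝ), EvInv K A → Dens σ A d → 0 < d →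
        ∀ᶠ X : ℕ in atTop, c * d * X ≤ (Set.ncard (Full c₁ θ η σ A X) : ℝ)) ∧
      (∀ A : Set ℤ, (∀ n, T n ∈ A ↔ n ∈ A) → ∀ a ∈ A, 0 < σ * a →
        ∀ᶠ X : ℕ in atTop, c / |(a : ℝ)| * X ≤ (Set.ncard (Full c₁ θ η σ A X) : ℝ))) ∧
    (∀ σ : ℤ, |σ| = 1 → ∀ A : Set ℤ, (∀ n, T n ∈ A ↔ n ∈ A) →
      ((∀ n ∈ A, ¬ 0 < σ * n) ↔ Dense σ Aᶜ) ∧ ((∀ n ∈ A, ¬ 0 < σ * n) ↔ DenseP σ Aᶜ) ∧
      ((∀ n ∈ A, ¬ 0 < σ * n) ↔ Ample σ Aᶜ)) ∧
    ((∀ n : ℤ, n ∉ W) ↔ Dense 1 Wᶜ ∧ Dense (-1) Wᶜ) ∧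
    ((∀ n : ℤ, n ∉ W) ↔ DenseP 1 Wᶜ ∧ DenseP (-1) Wᶜ) ∧
    ((∀ n : ℤ, n ∉ W) ↔ Ample 1 Wᶜ ∧ Ample (-1) Wᶜ) ∧
    ((∀ n : ℤ, 0 < n → ∃ k : ℕ, T^[k] n = 1) ↔ Dense 1 {n : ℤ | ∃ k : ℕ, T^[k] n = 1}) ∧
    ((∀ n : ℤ, 0 < n → ∃ k : ℕ, T^[k] n = 1) ↔ DenseP 1 {n : ℤ | ∃ k : ℕ, T^[k] n = 1}) ∧
    ((∀ n : ℤ, 0 < n → ∃ k : ℕ, T^[k] n = 1) ↔ Ample 1 {n : ℤ | ∃ k : ℕ, T^[k] n = 1}) := by
  have e1 : ∀ (σ : ℤ) (A : Set ℤ) (θ : ℝ) (x : ℕ),
      Num σ Aᶜ θ x = Pool.Agent.ZOL.cn (Pool.Agent.ZOL.outE σ A) x ((x : ℝ) ^ θ) :=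
    fun _ _ _ _ => rfl
  have e2 : ∀ (σ : ℤ) (A : Set ℤ) (θ : ℝ) (x : ℕ),
      NumP σ Aᶜ θ x = Pool.Agent.ZOL.cn (Pool.Agent.ZOL.outP σ A) x ((x : ℝ) ^ θ) :=
    fun _ _ _ _ => rfl
  have e3 : ∀ (σ : ℤ) (θ : ℝ) (x : ℕ),
      NumP σ Set.univ θ x = Pool.Agent.ZOL.cn {n : ℕ | n.Prime} x ((x : ℝ) ^ θ) := by
    intro σ θ x
    unfold NumP Pool.Agent.ZOL.cn
    congr 1
    ext p
    simp
  have h2 : ∀ σ : ℤ, |σ| = 1 → ∀ A : Set ℤ, (∀ n, T n ∈ A ↔ n ∈ A) →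
      ((∀ n ∈ A, ¬ 0 < σ * n) ↔ Dense σ Aᶜ) ∧ ((∀ n ∈ A, ¬ 0 < σ * n) ↔ DenseP σ Aᶜ) ∧
      ((∀ n ∈ A, ¬ 0 < σ * n) ↔ Ample σ Aᶜ) := by
    intro σ hσ A hA
    obtain ⟨g1, -⟩ := Pool.Agent.ZOL.all_Equiv A σ (Pool.Agent.ZOL.Main_sign hσ) hA
    exact ⟨Pool.Agent.LCF.dense_iff Pool.Agent.LCF.all_Latt hσ hA,
      Pool.Agent.MB86.densPL_iff_of (Pool.Agent.MB86.shareD_of Pool.Agent.ZOL.all_Block) hσ hA, g1⟩
  have hW : ∀ P Q : Prop, ((∀ n ∈ W, ¬ 0 < (1 : ℤ) * n) ↔ P) → ((∀ n ∈ W, ¬ 0 < (-1 : ℤ) * n) ↔ Q) →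
      ((∀ n : ℤ, n ∉ W) ↔ P ∧ Q) := by
    intro P Q i1 i2
    rw [← i1, ← i2]
    constructor
    · intro h
      exact ⟨fun n hn => absurd hn (h n), fun n hn => absurd hn (h n)⟩
    · rintro ⟨g1, g2⟩ n hn
      rcases lt_trichotomy n 0 with h | h | h
      · exact g2 n hn (by linarith)
      · rw [h] at hn
        exact Pool.Agent.ZOL.Main_zero hn
      · exact g1 n hn (by linarith)
  have hR : ∀ P : Prop, ((∀ n ∈ {n : ℤ | ¬ ∃ k : ℕ, T^[k] n = 1}, ¬ 0 < (1 : ℤ) * n) ↔ P) →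
      ((∀ n : ℤ, 0 < n → ∃ k : ℕ, T^[k] n = 1) ↔ P) := by
    intro P i1
    rw [← i1]
    constructor
    · intro h n hn h3
      exact hn (h n (by linarith))
    · intro h n hn
      by_contra h3
      exact h n h3 (by linarith)
  have hinv1 : ∀ n, T n ∈ {n : ℤ | ¬ ∃ k : ℕ, T^[k] n = 1} ↔ n ∈ {n : ℤ | ¬ ∃ k : ℕ, T^[k] n = 1} :=
    fun n => not_congr (Pool.Agent.ZOL.Main_one n)
  have e4 : {n : ℤ | ¬ ∃ k : ℕ, T^[k] n = 1}ᶜ = {n : ℤ | ∃ k : ℕ, T^[k] n = 1} := by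
    ext n
    simp
  have hI : ∃ c C : ℝ, 0 < c ∧ 0 < C ∧ ∀ (J h Y : ℕ) (x₀ : ℤ), 1 ≤ h → 2 ≤ Y →
      (Set.ncard {x : ℤ | x₀ ≤ x ∧ x < x₀ + Y ∧
        ∃ n : ℤ, Near J h x n ∧ ∀ k l : ℕ, T^[k] n ≠ T^[l] x} : ℝ) ≤
        C * Y * ((1 + J + Real.log h) / Real.sqrt (Real.log Y)) ∧
      (Set.ncard {x : ℤ | x₀ ≤ x ∧ x < x₀ + Y ∧
        ∃ n ∈ Win J h x, T^[Nat.log 2 Y] n ≠ T^[Nat.log 2 Y] x} : ℝ) ≤
        C * Y * ((1 + J + Real.log h) / Real.sqrt (Real.log Y)) ∧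
      ((J : ℝ) + Real.log h ≤ c * Real.log Y →
        ∑ x ∈ Finset.Ico x₀ (x₀ + Y), ((GO '' {n : ℤ | Near J h x n}).ncard : ℝ) ≤
          Y + C * Y * ((1 + J + Real.log h) / Real.sqrt (Real.log Y)) ∧
        ∑ x ∈ Finset.Ico x₀ (x₀ + Y), ((T^[Nat.log 2 Y] '' Win J h x).ncard : ℝ) ≤
          Y + C * Y * ((1 + J + Real.log h) / Real.sqrt (Real.log Y))) := by
    obtain ⟨C₁, hC₁, hw⟩ := Pool.Agent.MB86.wideI
    obtain ⟨c, C₂, hc, hC₂, ho⟩ := Pool.Agent.MB86.orbitsI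
    obtain ⟨C₃, hC₃, hl⟩ := Pool.Agent.MB86.latticeI_of Pool.Agent.MB86.orbitsI
    obtain ⟨c', C₄, hc', hC₄, ho'⟩ := Pool.Agent.MB86.orbitsLI
    refine ⟨min c c', C₁ + C₂ + C₃ + C₄, lt_min hc hc', by positivity, fun J h Y x₀ hh hY => ?_⟩
    have hY1 : (1 : ℝ) < Y := by exact_mod_cast (show 1 < Y by omega)
    have hlog : 0 < Real.log Y := Real.log_pos hY1
    have hlh : 0 ≤ Real.log h := Real.log_nonneg (by exact_mod_cast hh)
    obtain ⟨r, hr⟩ : ∃ r : ℝ, r = (1 + J + Real.log h) / Real.sqrt (Real.log Y) := ⟨_, rfl⟩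
    have hr0 : 0 ≤ Y * r := by rw [hr]; positivity
    have g1 := hw J h Y x₀ hh hY
    have g2 := ho J h Y x₀ hh hY
    have g3 := hl J h Y x₀ hh hY
    have g4 := ho' J h Y x₀ hh hY
    rw [← hr] at g1 g2 g3 g4 ⊢
    have e : (C₁ + C₂ + C₃ + C₄) * Y * r = C₁ * Y * r + C₂ * Y * r + C₃ * Y * r + C₄ * Y * r := by
      ring
    have p1 : 0 ≤ C₁ * Y * r := by rw [mul_assoc]; exact mul_nonneg hC₁.le hr0
    have p2 : 0 ≤ C₂ * Y * r := by rw [mul_assoc]; exact mul_nonneg hC₂.le hr0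
    have p3 : 0 ≤ C₃ * Y * r := by rw [mul_assoc]; exact mul_nonneg hC₃.le hr0
    have p4 : 0 ≤ C₄ * Y * r := by rw [mul_assoc]; exact mul_nonneg hC₄.le hr0
    rw [e]
    refine ⟨g3.trans (by linarith), g1.trans (by linarith), fun hJ => ⟨?_, ?_⟩⟩
    · refine (g4 (hJ.trans (mul_le_mul_of_nonneg_right (min_le_right _ _) hlog.le))).trans ?_
      linarith
    · refine (g2 (hJ.trans (mul_le_mul_of_nonneg_right (min_le_left _ _) hlog.le))).trans ?_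
      linarith
  refine ⟨hI, Pool.Agent.LCF.sharp, ?_, ?_, h2, ?_, ?_, ?_, ?_, ?_, ?_⟩
  · obtain ⟨δ₁, C₁, hδ₁, hC₁, hL⟩ := Pool.Agent.LCF.lawM (c := 1 / 26) (by norm_num) (by norm_num)
      Pool.Agent.RTE.all_ALQX
    obtain ⟨δ₂, C₂, hδ₂, hC₂, hV⟩ := Pool.Agent.LCF.whole_law (c := 1 / 26) (by norm_num)
      (by norm_num) Pool.Agent.RTE.all_ALQX Pool.Agent.LCF.all_MonoT
    obtain ⟨C₅, hC₅, hLL⟩ := Pool.Agent.LCF.lat_law (c := 1 / 26) (by norm_num) (by norm_num)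
      Pool.Agent.RTE.all_ALQX Pool.Agent.LCF.all_MonoT Pool.Agent.LCF.all_Latt
    obtain ⟨C₆, hC₆, hP⟩ := Pool.Agent.MB86.primeL
    obtain ⟨δ₃, C₇, hδ₃, hC₇, hWt⟩ := Pool.Agent.LCF.weights (c := 1 / 26) (by norm_num)
      (by norm_num) Pool.Agent.RTE.all_ALQX Pool.Agent.LCF.all_MonoT
    obtain ⟨C₀, hC₀⟩ : ∃ C₀ : ℝ, C₀ = C₁ + C₂ + C₅ + C₆ + C₇ := ⟨_, rfl⟩
    obtain ⟨δ₀, hδ₀⟩ : ∃ δ₀ : ℝ, δ₀ = min δ₁ (min δ₂ δ₃) := ⟨_, rfl⟩
    have l1 : δ₀ ≤ δ₁ := by rw [hδ₀]; exact min_le_left _ _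
    have l2 : δ₀ ≤ δ₂ := by rw [hδ₀]; exact (min_le_right _ _).trans (min_le_left _ _)
    have l3 : δ₀ ≤ δ₃ := by rw [hδ₀]; exact (min_le_right _ _).trans (min_le_right _ _)
    refine ⟨δ₀, C₀, by rw [hδ₀]; exact lt_min hδ₁ (lt_min hδ₂ hδ₃), by rw [hC₀]; positivity,
      fun σ hσ X h hX hh => ?_⟩
    have k1 : C₁ ≤ C₀ := by rw [hC₀]; linarith
    have k2 : C₂ ≤ C₀ := by rw [hC₀]; linarith
    have k5 : C₅ ≤ C₀ := by rw [hC₀]; linarith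
    have k6 : C₆ ≤ C₀ := by rw [hC₀]; linarith
    have k7 : C₇ ≤ C₀ := by rw [hC₀]; linarith
    have hX1 : (1 : ℝ) < X := by exact_mod_cast (show 1 < X by omega)
    have hlog : 0 < Real.log X := Real.log_pos hX1
    have hX0 : (0 : ℝ) ≤ X := by linarith
    have hlh : 0 ≤ Real.log h := Real.log_nonneg (by exact_mod_cast hh)
    have hs := Pool.Agent.SLD.conv_sign hσ
    refine ⟨fun J => ?_, fun A d hA hD J => ?_, ?_⟩
    · refine (hP σ J X h hσ hX hh).trans ?_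
      apply mul_le_mul_of_nonneg_right _ (by positivity)
      exact mul_le_mul_of_nonneg_right k6 (by positivity)
    · refine (hLL σ A d J X h hσ hA (Pool.Agent.SLD.conv_dens hs (hD 1 0 le_rfl)) hX hh).trans ?_
      apply mul_le_mul_of_nonneg_right _ (by positivity)
      exact mul_le_mul_of_nonneg_right k5 hX0
    · intro K A d hA hD hK
      refine ⟨?_, ?_, ?_⟩
      · refine (hV σ K A d X h hσ (Pool.Agent.SLD.conv_EvInv hA)
          (Pool.Agent.SLD.conv_dens hs (hD 1 0 le_rfl)) hX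
          (hK.trans (Real.rpow_le_rpow_of_exponent_le hX1.le l2)) hh).trans ?_
        apply mul_le_mul_of_nonneg_right _ (by positivity)
        exact mul_le_mul_of_nonneg_right k2 hX0
      · intro w m hw
        refine (hWt σ K A d X h w m hσ (Pool.Agent.SLD.conv_EvInv hA)
          (Pool.Agent.SLD.conv_dens hs (hD 1 0 le_rfl)) hX
          (hK.trans (Real.rpow_le_rpow_of_exponent_le hX1.le l3)) hh hw).trans ?_
        apply add_le_add_left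
        apply add_le_add_left
        apply mul_le_mul_of_nonneg_right _ (by positivity)
        exact mul_le_mul_of_nonneg_right k7 hX0
      · intro m hm hmh
        refine (hL σ K A d X h m hσ (Pool.Agent.SLD.conv_EvInv hA)
          (Pool.Agent.SLD.conv_dens hs (hD 1 0 le_rfl)) hX
          (hK.trans (Real.rpow_le_rpow_of_exponent_le hX1.le l1)) hm hmh).trans ?_
        apply mul_le_mul_of_nonneg_right _ (by positivity)
        exact mul_le_mul_of_nonneg_right k1 hX0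
  · obtain ⟨c₁, hc₁, h⟩ := Pool.Agent.ZOL.all_Block
    refine ⟨c₁, hc₁, fun θ h0 h1 η hη => ?_⟩
    obtain ⟨c, hc, hB⟩ := h θ h0 h1 η hη
    obtain ⟨c₀, hc₀, hN⟩ := Pool.Agent.Collatz3.ND.main
    have hm : 0 < min 1 c₀ := lt_min one_pos hc₀
    have key : ∀ σ : ℤ, |σ| = 1 → ∀ (K : ℕ) (A : Set ℤ) (d : ℝ), EvInv K A → Dens σ A d →
        0 < d → ∀ᶠ X : ℕ in atTop, c * d * X ≤ (Set.ncard (Full c₁ θ η σ A X) : ℝ) := by
      intro σ hσ K A d hA hD hd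
      have h3 := hB K A σ d (Pool.Agent.ZOL.Main_sign hσ) hA hD hd
      unfold Full
      simp only [e1, e2, e3]
      exact h3
    refine ⟨c * min 1 c₀, by positivity, fun σ hσ => ⟨?_, ?_⟩⟩
    · intro K A d hA hD hd
      filter_upwards [key σ hσ K A d hA hD hd] with X hX
      refine le_trans ?_ hX
      have h4 : c * min 1 c₀ ≤ c := mul_le_of_le_one_right hc.le (min_le_left _ _)
      have h5 : (0 : ℝ) ≤ d * X := by positivity
      calc c * min 1 c₀ * d * X = (c * min 1 c₀) * (d * X) := by ring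
        _ ≤ c * (d * X) := mul_le_mul_of_nonneg_right h4 h5
        _ = c * d * X := by ring
    · intro A hA a ha haσ
      obtain ⟨D, g1, -, -, -, g5, -⟩ := hN σ hσ
      have hinv : EvInv 0 A := fun n _ => hA n
      have g6 := g5 A hA a ha haσ
      have ha0 : 0 < |(a : ℝ)| := by
        rw [abs_pos]
        intro h6
        have h7 : a = 0 := by exact_mod_cast h6
        rw [h7, mul_zero] at haσ
        exact lt_irrefl _ haσ
      have hd : 0 < D A := lt_of_lt_of_le (by positivity) g6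
      filter_upwards [key σ hσ 0 A (D A) hinv (g1 0 A hinv) hd] with X hX
      refine le_trans ?_ hX
      have h4 : min 1 c₀ / |(a : ℝ)| ≤ D A :=
        (div_le_div_of_nonneg_right (min_le_right _ _) ha0.le).trans g6
      have h5 : (0 : ℝ) ≤ c * X := by positivity
      calc c * min 1 c₀ / |(a : ℝ)| * X = (c * X) * (min 1 c₀ / |(a : ℝ)|) := by ring
        _ ≤ (c * X) * D A := mul_le_mul_of_nonneg_left h4 h5
        _ = c * D A * X := by ring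
  · exact hW _ _ (h2 1 (by norm_num) W Pool.Agent.Collatz3.ND.reach_inv_W).1
      (h2 (-1) (by norm_num) W Pool.Agent.Collatz3.ND.reach_inv_W).1
  · exact hW _ _ (h2 1 (by norm_num) W Pool.Agent.Collatz3.ND.reach_inv_W).2.1
      (h2 (-1) (by norm_num) W Pool.Agent.Collatz3.ND.reach_inv_W).2.1
  · exact hW _ _ (h2 1 (by norm_num) W Pool.Agent.Collatz3.ND.reach_inv_W).2.2
      (h2 (-1) (by norm_num) W Pool.Agent.Collatz3.ND.reach_inv_W).2.2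
  · have i1 := (h2 1 (by norm_num) _ hinv1).1
    rw [e4] at i1
    exact hR _ i1
  · have i1 := (h2 1 (by norm_num) _ hinv1).2.1
    rw [e4] at i1
    exact hR _ i1
  · have i1 := (h2 1 (by norm_num) _ hinv1).2.2
    rw [e4] at i1
    exact hR _ i1

end Pool.Agent.Results.MP_071ec9_an.SharpZeroOneLaw
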