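import Mathlib
import Pool.Agent.Helper14.FatouDefs
import Pool.Agent.Helper14.Fatou
import Pool.Agent.Collatz3.UNFinal

set_option autoImplicit false

namespace Pool.Agent.Results.MP_071ec9_an.UniformBarrier

open Pool.Agent.Helper14 (T f₀ fatouComponent IsWanderingDomain f₀_iter_intCast intWandering_congr
  abs_le_finite)

/-- There is a constant `c > 0` such that for every `ε > 0` there is `C > 0` such that for all real
`M ≥ 1` and `X ≥ 1`, all but at most `C X M ^ (-(η + c))` of the integers `n` with `|n| ≤ X` have an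
iterate `f₀^j(n) = m` with `j ≤ (2 / log (4/3) + ε) log X + C log M` and `|m| ≤ M`, and then the
Fatou component of `n` is a wandering domain of `f₀` if and only if that of `m` is. Here
`η = 1 - H(log 2 / log 3) / log 2 = 0.0500…` and `H` is the binary entropy function, in nats. -/
theorem result :
    ∃ c : ℝ, 0 < c ∧ ∀ ε : ℝ, 0 < ε → ∃ C : ℝ, 0 < C ∧ ∀ M : ℝ, 1 ≤ M → ∀ X : ℝ, 1 ≤ X →
      (Set.ncard {n : ℤ | |(n : ℝ)| ≤ X ∧ ¬ ∃ (j : ℕ) (m : ℤ),
        (j : ℝ) ≤ (2 / Real.log (4 / 3) + ε) * Real.log X + C * Real.log M ∧ |(m : ℝ)| ≤ M ∧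
          f₀^[j] (n : ℂ) = (m : ℂ) ∧
          (IsWanderingDomain f₀ (fatouComponent f₀ (n : ℂ)) ↔
            IsWanderingDomain f₀ (fatouComponent f₀ (m : ℂ)))} : ℝ) ≤
      C * X * M ^ (-(1 - Real.binEntropy (Real.log 2 / Real.log 3) / Real.log 2 + c)) := by
  obtain ⟨c, hc, h⟩ := Pool.Agent.Collatz3.UN.final
  refine ⟨c, hc, fun ε hε => ?_⟩
  obtain ⟨C, hC, h⟩ := h ε hε
  refine ⟨C, hC, fun M hM X hX => le_trans ?_ (h M hM X hX)⟩
  have hsub : {n : ℤ | |(n : ℝ)| ≤ X ∧ ¬ ∃ (j : ℕ) (m : ℤ),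
      (j : ℝ) ≤ (2 / Real.log (4 / 3) + ε) * Real.log X + C * Real.log M ∧ |(m : ℝ)| ≤ M ∧
        f₀^[j] (n : ℂ) = (m : ℂ) ∧
        (IsWanderingDomain f₀ (fatouComponent f₀ (n : ℂ)) ↔
          IsWanderingDomain f₀ (fatouComponent f₀ (m : ℂ)))} ⊆
      {n : ℤ | |(n : ℝ)| ≤ X ∧ ∀ j : ℕ,
        (j : ℝ) ≤ (2 / Real.log (4 / 3) + ε) * Real.log X + C * Real.log M →
        M < |((T^[j] n : ℤ) : ℝ)|} := by
    rintro n ⟨h1, h2⟩
    refine ⟨h1, fun j hj => ?_⟩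
    by_contra hcon
    push Not at hcon
    exact h2 ⟨j, T^[j] n, hj, hcon, f₀_iter_intCast n j,
      intWandering_congr (k := j) (l := 0) rfl⟩
  have hfin : {n : ℤ | |(n : ℝ)| ≤ X ∧ ∀ j : ℕ,
      (j : ℝ) ≤ (2 / Real.log (4 / 3) + ε) * Real.log X + C * Real.log M →
        M < |((T^[j] n : ℤ) : ℝ)|}.Finite :=
    (abs_le_finite X).subset fun _ h => h.1
  exact_mod_cast Set.ncard_le_ncard hsub hfin

end Pool.Agent.Results.MP_071ec9_an.UniformBarrier
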